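import Mathlib
import Pool.Agent.L7h62.ND.Stm

/-!
# Project ND (MP_cd312e_ag): leaf DGB
-/

set_option autoImplicit false

namespace Pool.Agent.L7h53.ND

open Module Pool.Agent.L7h62.ND

section

variable {K V : Type} [Field K] [AddCommGroup V] [Module K V] [FiniteDimensional K V]

lemma sum_finrank_le {ι : Type} [DecidableEq ι] {t : ι → Submodule K V} (ht : iSupIndep t)
    (s : Finset ι) : ∑ i ∈ s, finrank K (t i) = finrank K (⨆ i ∈ s, t i : Submodule K V) := by
  induction s using Finset.induction_on with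
  | empty =>
    have h0 : (⨆ i ∈ (∅ : Finset ι), t i : Submodule K V) = ⊥ := by simp
    rw [h0, finrank_bot, Finset.sum_empty]
  | insert a s ha ih =>
    rw [Finset.sum_insert ha, ih, Finset.iSup_insert]
    have h1 : Disjoint (t a) (⨆ i ∈ s, t i) := by
      refine (ht a).mono_right ?_
      apply iSup_mono
      intro i
      apply iSup_mono'
      intro hi
      exact ⟨fun h => ha (h ▸ hi), le_rfl⟩
    have h2 := Submodule.finrank_sup_add_finrank_inf_eq (t a) (⨆ i ∈ s, t i)
    rw [h1.eq_bot, finrank_bot] at h2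
    omega

omit [FiniteDimensional K V] in
lemma finrank_of_bijOn {E F : Submodule K V} {T : Module.End K V}
    (h : Set.BijOn (⇑T) (E : Set V) (F : Set V)) : finrank K E = finrank K F := by
  have hm : ∀ x ∈ E, T x ∈ F := fun x hx => h.mapsTo hx
  have hb : Function.Bijective (T.restrict hm) := by
    constructor
    · intro x y hxy
      apply Subtype.ext
      exact h.injOn x.2 y.2 (congrArg Subtype.val hxy)
    · intro y
      obtain ⟨x, hx, hxy⟩ := h.surjOn y.2
      exact ⟨⟨x, hx⟩, Subtype.ext hxy⟩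
  exact (LinearEquiv.ofBijective _ hb).finrank_eq

end

/-- **DGB** -/
theorem t_DGB : S_DGB := by
  intro K V _ _ _ _ _ D T c hHL
  classical
  have hind := Module.End.eigenspaces_iSupIndep D
  set s : Finset K := (Finset.Icc 1 c).image (fun j : ℕ => (j : K)) ∪
    (Finset.Icc 1 c).image (fun j : ℕ => -(j : K)) with hs
  have h1 := sum_finrank_le hind s
  have h2 : finrank K (⨆ i ∈ s, D.eigenspace i : Submodule K V) ≤ finrank K V :=
    Submodule.finrank_le _
  have hdis : Disjoint ((Finset.Icc 1 c).image (fun j : ℕ => (j : K)))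
      ((Finset.Icc 1 c).image (fun j : ℕ => -(j : K))) := by
    rw [Finset.disjoint_left]
    intro x hx hx2
    rw [Finset.mem_image] at hx hx2
    obtain ⟨i, hi, rfl⟩ := hx
    obtain ⟨j, hj, hij⟩ := hx2
    rw [Finset.mem_Icc] at hi hj
    have h3 : ((i + j : ℕ) : K) = 0 := by
      push_cast
      rw [← hij]
      ring
    have h4 : i + j = 0 := by exact_mod_cast h3
    omega
  rw [hs, Finset.sum_union hdis, Finset.sum_image (fun i _ j _ h => by exact_mod_cast h),
    Finset.sum_image (fun i _ j _ h => by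
      have h' : (i : K) = j := neg_injective h
      exact_mod_cast h')] at h1
  have h3 : ∀ j : ℕ, finrank K (D.eigenspace (-(j : K))) = finrank K (D.eigenspace (j : K)) :=
    fun j => (finrank_of_bijOn (hHL j)).symm
  simp only [h3] at h1
  have h4 : ∑ j ∈ Finset.Icc 1 c, j * finrank K (D.eigenspace (j : K)) ≤
      ∑ j ∈ Finset.Icc 1 c, c * finrank K (D.eigenspace (j : K)) := by
    apply Finset.sum_le_sum
    intro j hj
    exact Nat.mul_le_mul_right _ (Finset.mem_Icc.1 hj).2
  rw [← Finset.mul_sum] at h4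
  rw [← hs] at h1
  calc 2 * ∑ j ∈ Finset.Icc 1 c, j * finrank K (D.eigenspace (j : K)) ≤
        2 * (c * ∑ j ∈ Finset.Icc 1 c, finrank K (D.eigenspace (j : K))) := Nat.mul_le_mul_left _ h4
    _ = c * (∑ j ∈ Finset.Icc 1 c, finrank K (D.eigenspace (j : K)) +
        ∑ j ∈ Finset.Icc 1 c, finrank K (D.eigenspace (j : K))) := by ring
    _ ≤ c * finrank K V := Nat.mul_le_mul_left _ (h1.le.trans h2)

end Pool.Agent.L7h53.ND
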