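import Mathlib
import Pool.Agent.L7h62.ND.Stm
import Pool.Agent.N184.HK.P_SL2A

/-!
# Project ND (MP_cd312e_ag): leaves NIL, CNJ, RAY
-/

set_option autoImplicit false

namespace Pool.Agent.L7h53.ND

open Module Pool.Agent.L7h62.ND Pool.Agent.N184.HK

section

variable {K V : Type} [Field K] [AddCommGroup V] [Module K V]

lemma deg_apply {Y T : Module.End K V} {d : ℤ} (h : Deg Y T d) {l : ℤ} {x : V}
    (hx : Y x = (l : K) • x) : Y (T x) = ((l + d : ℤ) : K) • T x := by
  have h1 := congrArg (fun A : Module.End K V => A x) h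
  simp only [LinearMap.sub_apply, Module.End.mul_apply, LinearMap.smul_apply, hx, map_smul] at h1
  rw [sub_eq_iff_eq_add] at h1
  rw [h1]
  push_cast
  rw [add_smul, add_comm]

lemma deg_pow {Y T : Module.End K V} {d : ℤ} (h : Deg Y T d) {l : ℤ} {x : V}
    (hx : Y x = (l : K) • x) (n : ℕ) : Y ((T ^ n) x) = ((l + n * d : ℤ) : K) • (T ^ n) x := by
  induction n with
  | zero => simpa using hx
  | succ n ih =>
    rw [pow_succ', Module.End.mul_apply, deg_apply h ih]
    congr 2
    push_cast
    ring

end

/-- **NIL** -/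
theorem t_NIL : S_NIL := by
  intro K V _ _ _ _ _ D Z hD hZ
  classical
  obtain ⟨ι, _, b, w, hb⟩ := P_SL2A.eig_basis D hD
  have h1 : ∀ i, ∃ n : ℕ, (Z ^ n) (b i) = 0 := by
    intro i
    by_contra hcon
    push Not at hcon
    have hfin := Module.End.finite_hasEigenvalue D
    have hmap : ∀ n : ℕ, ((w i + n * (-2) : ℤ) : K) ∈ {μ | D.HasEigenvalue μ} := by
      intro n
      refine Module.End.hasEigenvalue_of_hasEigenvector (x := (Z ^ n) (b i)) ⟨?_, hcon n⟩
      rw [Module.End.mem_eigenspace_iff]
      exact deg_pow hZ (hb i) n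
    have hinj : Function.Injective fun n : ℕ => ((w i + n * (-2) : ℤ) : K) := by
      intro n m hnm
      have hnm' : ((w i + n * (-2) : ℤ) : K) = ((w i + m * (-2) : ℤ) : K) := hnm
      have := Int.cast_injective hnm'
      omega
    exact Set.infinite_of_injective_forall_mem hinj hmap hfin
  choose n hn using h1
  have h2 : Z ^ (∑ i, n i) = 0 := by
    apply b.ext
    intro i
    rw [LinearMap.zero_apply]
    have h3 : n i ≤ ∑ i, n i := Finset.single_le_sum (fun _ _ => Nat.zero_le _) (Finset.mem_univ i)
    obtain ⟨m, hm⟩ := Nat.exists_eq_add_of_le h3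
    rw [hm, add_comm, pow_add, Module.End.mul_apply, hn i, map_zero]
  have h3 := IsNilpotent.charpoly_eq_X_pow_finrank (φ := Z) ⟨_, h2⟩
  have h4 := LinearMap.aeval_self_charpoly Z
  rw [h3] at h4
  simpa using h4

/-- **CNJ** -/
theorem t_CNJ : S_CNJ := by
  intro K V _ _ _ _ _ Y hY ζ hζ
  classical
  obtain ⟨ι, _, b, w, hb⟩ := P_SL2A.eig_basis Y hY
  set u : Module.End K V := b.constr K fun i => ζ ^ (-w i) • b i with hu
  set v : Module.End K V := b.constr K fun i => ζ ^ (w i) • b i with hv
  have ub : ∀ i, u (b i) = ζ ^ (-w i) • b i := fun i => by rw [hu, Basis.constr_basis]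
  have vb : ∀ i, v (b i) = ζ ^ (w i) • b i := fun i => by rw [hv, Basis.constr_basis]
  have hux : ∀ (k : ℤ) (x : V), Y x = (k : K) • x → u x = ζ ^ (-k) • x := by
    intro k x hx
    have h1 : u * P_SL2A.pj b w k = ζ ^ (-k) • P_SL2A.pj b w k := by
      apply b.ext
      intro i
      rw [Module.End.mul_apply, LinearMap.smul_apply, P_SL2A.pj_b]
      by_cases hi : w i = k
      · rw [if_pos hi, ub, hi]
      · rw [if_neg hi, map_zero, smul_zero]
    have h2 := P_SL2A.pj_eig hb hx k
    rw [if_pos rfl] at h2
    have h3 := congrArg (fun A : Module.End K V => A x) h1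
    simp only [Module.End.mul_apply, LinearMap.smul_apply, h2] at h3
    exact h3
  refine ⟨u, v, ?_, ?_, ?_, ?_⟩
  · apply b.ext
    intro i
    rw [Module.End.mul_apply, vb, map_smul, ub, smul_smul, ← zpow_add₀ hζ, add_neg_cancel,
      zpow_zero, one_smul, Module.End.one_apply]
  · apply b.ext
    intro i
    rw [Module.End.mul_apply, ub, map_smul, vb, smul_smul, ← zpow_add₀ hζ, neg_add_cancel,
      zpow_zero, one_smul, Module.End.one_apply]
  · intro D hD
    apply b.ext
    intro i
    rw [Module.End.mul_apply, Module.End.mul_apply, ub, map_smul]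
    symm
    apply hux
    have h1 := congrArg (fun A : Module.End K V => A (b i)) hD.eq
    simp only [Module.End.mul_apply, hb, map_smul] at h1
    exact h1.symm
  · intro T s hT
    apply b.ext
    intro i
    rw [LinearMap.smul_apply, Module.End.mul_apply, Module.End.mul_apply, ub, map_smul,
      hux _ _ (deg_apply hT (hb i)), smul_smul, ← zpow_add₀ hζ]
    congr 2
    ring

/-- **RAY** -/
theorem t_RAY : S_RAY := by
  intro K _ r P y ⟨z0, hz0⟩
  classical
  set f : Fin r → Polynomial K := fun i => Polynomial.C (y i) * Polynomial.X with hf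
  set p : Polynomial K := MvPolynomial.aeval f P with hp
  have h1 : ∀ z : K, p.eval z = MvPolynomial.eval (z • y) P := by
    intro z
    have h2 := MvPolynomial.comp_aeval_apply (f := f) (Polynomial.aeval z) P
    rw [Polynomial.coe_aeval_eq_eval] at h2
    rw [hp]
    refine Eq.trans h2 ?_
    have h3 : (fun i => Polynomial.eval z (f i)) = z • y := by
      funext i
      rw [hf, Pi.smul_apply, smul_eq_mul]
      show Polynomial.eval z (Polynomial.C (y i) * Polynomial.X) = _
      rw [Polynomial.eval_mul, Polynomial.eval_C, Polynomial.eval_X, mul_comm]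
    rw [h3, MvPolynomial.aeval_eq_eval]
  have h2 : p ≠ 0 := by
    intro h
    apply hz0
    rw [← h1, h, Polynomial.eval_zero]
  have h3 : p.natDegree ≤ P.totalDegree := by
    have := MvPolynomial.aeval_natDegree_le (m := P.totalDegree) (n := 1) P le_rfl f (fun i => by
      rw [hf]
      exact (Polynomial.natDegree_C_mul_le _ _).trans Polynomial.natDegree_X_le)
    rwa [mul_one] at this
  have h4 : {z : K | MvPolynomial.eval (z • y) P = 0} = (p.roots.toFinset : Set K) := by
    ext z
    rw [Set.mem_ofPred_eq, ← h1, Finset.mem_coe, Multiset.mem_toFinset, Polynomial.mem_roots h2,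
      Polynomial.IsRoot.def]
  rw [h4]
  refine ⟨Finset.finite_toSet _, ?_⟩
  rw [Set.ncard_coe_finset]
  exact (Multiset.toFinset_card_le _).trans ((Polynomial.card_roots' p).trans h3)

end Pool.Agent.L7h53.ND
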