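import Mathlib
import Pool.Agent.L7h62.ND.Stm

/-!
# Project ND (MP_cd312e_ag): leaf POL
-/

set_option autoImplicit false

namespace Pool.Agent.L7h53.ND

open Module Pool.Agent.L7h62.ND

section

variable {K : Type} [Field K] {r : ℕ}

lemma deg_mul {n m l : ℕ} {A : Matrix (Fin n) (Fin m) (MvPolynomial (Fin r) K)}
    {B : Matrix (Fin m) (Fin l) (MvPolynomial (Fin r) K)} {a b : ℕ}
    (hA : ∀ i j, (A i j).totalDegree ≤ a) (hB : ∀ i j, (B i j).totalDegree ≤ b) (i : Fin n)
    (j : Fin l) : ((A * B) i j).totalDegree ≤ a + b := by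
  rw [Matrix.mul_apply]
  apply MvPolynomial.totalDegree_finsetSum_le
  intro k _
  exact (MvPolynomial.totalDegree_mul _ _).trans (Nat.add_le_add (hA i k) (hB k j))

lemma deg_pow' {n : ℕ} {A : Matrix (Fin n) (Fin n) (MvPolynomial (Fin r) K)}
    (hA : ∀ i j, (A i j).totalDegree ≤ 1) (k : ℕ) (i j : Fin n) :
    ((A ^ k) i j).totalDegree ≤ k := by
  induction k generalizing i j with
  | zero =>
    rw [pow_zero, Matrix.one_apply]
    split_ifs
    · simp
    · simp
  | succ k ih =>
    rw [pow_succ]
    exact deg_mul ih hA i j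

lemma deg_det {n : ℕ} {A : Matrix (Fin n) (Fin n) (MvPolynomial (Fin r) K)} {a : ℕ}
    (hA : ∀ i j, (A i j).totalDegree ≤ a) : A.det.totalDegree ≤ a * n := by
  rw [Matrix.det_apply]
  apply MvPolynomial.totalDegree_finsetSum_le
  intro σ _
  have h1 : (∏ i, A (σ i) i).totalDegree ≤ a * n := by
    refine (MvPolynomial.totalDegree_finsetProd _ _).trans ?_
    refine (Finset.sum_le_sum fun i _ => hA (σ i) i).trans ?_
    rw [Finset.sum_const, Finset.card_univ, Fintype.card_fin, smul_eq_mul, mul_comm]
  rcases Int.units_eq_one_or (Equiv.Perm.sign σ) with h | h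
  · rw [h, one_smul]
    exact h1
  · rw [h, Units.neg_smul, one_smul, MvPolynomial.totalDegree_neg]
    exact h1

end

section

variable {K V : Type} [Field K] [AddCommGroup V] [Module K V] [FiniteDimensional K V]

omit [FiniteDimensional K V] in
lemma bijOn_iff {E F : Submodule K V} {T : Module.End K V} (hm : ∀ x ∈ E, T x ∈ F) :
    Set.BijOn (⇑T) (E : Set V) (F : Set V) ↔ Function.Bijective (T.restrict hm) := by
  constructor
  · intro h
    constructor
    · intro x y hxy
      apply Subtype.ext
      exact h.injOn x.2 y.2 (congrArg Subtype.val hxy)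
    · intro y
      obtain ⟨x, hx, hxy⟩ := h.surjOn y.2
      exact ⟨⟨x, hx⟩, Subtype.ext hxy⟩
  · intro h
    refine ⟨fun x hx => hm x hx, ?_, ?_⟩
    · intro x hx y hy hxy
      have := h.1 (a₁ := ⟨x, hx⟩) (a₂ := ⟨y, hy⟩) (Subtype.ext hxy)
      exact congrArg Subtype.val this
    · intro y hy
      obtain ⟨x, hx⟩ := h.2 ⟨y, hy⟩
      exact ⟨x, x.2, congrArg Subtype.val hx⟩

/-- one pair of subspaces -/
lemma one_pair (r : ℕ) (N : Module.End K V) (S : Fin r → Module.End K V) (j : ℕ)
    (E F : Submodule K V)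
    (h : ∀ e : Fin r → K, ∀ x ∈ E, ((N + ∑ i, e i • S i) ^ j) x ∈ F) :
    ∃ P : MvPolynomial (Fin r) K, P.totalDegree ≤ j * finrank K E ∧
      ∀ e : Fin r → K, (MvPolynomial.eval e P ≠ 0 ↔
        Set.BijOn (⇑((N + ∑ i, e i • S i) ^ j)) (E : Set V) (F : Set V)) := by
  classical
  by_cases hEF : finrank K E = finrank K F
  swap
  · refine ⟨0, by simp, fun e => ?_⟩
    rw [map_zero]
    constructor
    · intro h0
      exact absurd rfl h0
    · intro hb
      exfalso
      apply hEF
      have hm : ∀ x ∈ E, ((N + ∑ i, e i • S i) ^ j) x ∈ F := h e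
      exact (LinearEquiv.ofBijective _ ((bijOn_iff hm).1 hb)).finrank_eq
  obtain ⟨π, hπ⟩ := F.subtype.exists_leftInverse_of_injective (Submodule.ker_subtype F)
  set n := finrank K E with hn
  set d := finrank K V with hd
  set b : Basis (Fin d) K V := Module.finBasis K V with hb
  set bE : Basis (Fin n) K E := Module.finBasis K E with hbE
  set bF : Basis (Fin n) K F := Module.finBasisOfFinrankEq K F hEF.symm with hbF
  set M : Matrix (Fin d) (Fin d) (MvPolynomial (Fin r) K) :=
    (LinearMap.toMatrix b b N).map MvPolynomial.C +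
      ∑ i, (MvPolynomial.X i : MvPolynomial (Fin r) K) •
        (LinearMap.toMatrix b b (S i)).map MvPolynomial.C with hM
  set A : Matrix (Fin n) (Fin d) (MvPolynomial (Fin r) K) :=
    (LinearMap.toMatrix b bF π).map MvPolynomial.C with hA
  set B : Matrix (Fin d) (Fin n) (MvPolynomial (Fin r) K) :=
    (LinearMap.toMatrix bE b E.subtype).map MvPolynomial.C with hB
  refine ⟨(A * M ^ j * B).det, ?_, fun e => ?_⟩
  · have hM1 : ∀ i k, (M i k).totalDegree ≤ 1 := by
      intro i k
      rw [hM, Matrix.add_apply]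
      refine (MvPolynomial.totalDegree_add _ _).trans (max_le ?_ ?_)
      · rw [Matrix.map_apply, MvPolynomial.totalDegree_C]
        exact Nat.zero_le _
      · rw [Matrix.sum_apply]
        apply MvPolynomial.totalDegree_finsetSum_le
        intro l _
        rw [Matrix.smul_apply, Matrix.map_apply, smul_eq_mul]
        refine (MvPolynomial.totalDegree_mul _ _).trans ?_
        rw [MvPolynomial.totalDegree_C, MvPolynomial.totalDegree_X]
    have hA0 : ∀ i k, (A i k).totalDegree ≤ 0 := by
      intro i k
      rw [hA, Matrix.map_apply, MvPolynomial.totalDegree_C]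
    have hB0 : ∀ i k, (B i k).totalDegree ≤ 0 := by
      intro i k
      rw [hB, Matrix.map_apply, MvPolynomial.totalDegree_C]
    have h1 := deg_det (deg_mul (deg_mul hA0 (deg_pow' hM1 j)) hB0)
    simpa using h1
  · have hm : ∀ x ∈ E, ((N + ∑ i, e i • S i) ^ j) x ∈ F := h e
    rw [bijOn_iff hm]
    set T := N + ∑ i, e i • S i with hT
    have hMe : M.map (MvPolynomial.eval e) = LinearMap.toMatrix b b T := by
      ext i k
      rw [hM, hT, map_add, map_sum]
      simp only [Matrix.map_apply, Matrix.add_apply, Matrix.sum_apply, Matrix.smul_apply,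
        map_add, map_sum, smul_eq_mul, map_mul, MvPolynomial.eval_C, MvPolynomial.eval_X, map_smul]
    have hAe : A.map (MvPolynomial.eval e) = LinearMap.toMatrix b bF π := by
      ext i k
      rw [hA, Matrix.map_apply, Matrix.map_apply, MvPolynomial.eval_C]
    have hBe : B.map (MvPolynomial.eval e) = LinearMap.toMatrix bE b E.subtype := by
      ext i k
      rw [hB, Matrix.map_apply, Matrix.map_apply, MvPolynomial.eval_C]
    have h2 : MvPolynomial.eval e (A * M ^ j * B).det =
        (LinearMap.toMatrix bE bF ((T ^ j).restrict hm)).det := by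
      rw [RingHom.map_det]
      congr 1
      rw [RingHom.mapMatrix_apply, Matrix.map_mul, Matrix.map_mul]
      have h3 : (M ^ j).map (MvPolynomial.eval e) = (M.map (MvPolynomial.eval e)) ^ j := by
        have := map_pow (MvPolynomial.eval e).mapMatrix M j
        simpa only [RingHom.mapMatrix_apply] using this
      rw [h3, hMe, hAe, hBe]
      have h4 : LinearMap.toMatrix b b T ^ j = LinearMap.toMatrix b b (T ^ j) :=
        (LinearMap.toMatrix_pow b T j)
      rw [h4, ← LinearMap.toMatrix_comp, ← LinearMap.toMatrix_comp]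
      congr 1
      ext x
      simp only [LinearMap.comp_apply, Submodule.subtype_apply]
      have h5 := congrArg (fun f => f (((T ^ j).restrict hm) x)) hπ
      simp only [LinearMap.comp_apply, LinearMap.id_apply, Submodule.subtype_apply] at h5
      rw [← h5]
      rfl
    rw [h2]
    constructor
    · intro h0
      have h6 : IsUnit (LinearMap.toMatrix bE bF ((T ^ j).restrict hm)).det := isUnit_iff_ne_zero.2 h0
      exact (LinearEquiv.ofIsUnitDet h6).bijective
    · intro h0
      exact isUnit_iff_ne_zero.1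
        (LinearEquiv.isUnit_det (LinearEquiv.ofBijective _ h0) bE bF)

end

/-- **POL** -/
theorem t_POL : S_POL := by
  intro K V _ _ _ _ r N S J E F h
  classical
  have h1 : ∀ j ∈ J, ∃ P : MvPolynomial (Fin r) K, P.totalDegree ≤ j * finrank K (E j) ∧
      ∀ e : Fin r → K, (MvPolynomial.eval e P ≠ 0 ↔
        Set.BijOn (⇑((N + ∑ i, e i • S i) ^ j)) (E j : Set V) (F j : Set V)) := fun j hj =>
    one_pair r N S j (E j) (F j) (fun e x hx => h j hj e x hx)
  choose! P hP hP2 using h1
  refine ⟨∏ j ∈ J, P j, ?_, fun e => ?_⟩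
  · refine (MvPolynomial.totalDegree_finsetProd _ _).trans ?_
    exact Finset.sum_le_sum hP
  · rw [map_prod, Finset.prod_ne_zero_iff]
    constructor
    · intro h2 j hj
      exact (hP2 j hj e).1 (h2 j hj)
    · intro h2 j hj
      exact (hP2 j hj e).2 (h2 j hj)

end Pool.Agent.L7h53.ND
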