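import Mathlib
import Pool.Agent.L7h62.ND.Stm
import Pool.Agent.L7h53.ND.Nil

/-!
# Project ND (MP_cd312e_ag): leaf SCA
-/

set_option autoImplicit false

namespace Pool.Agent.L7h53.ND

open Module Pool.Agent.L7h62.ND

section

variable {K V : Type} [Field K] [AddCommGroup V] [Module K V]

lemma deg_add {Y A B : Module.End K V} {d : ℤ} (hA : Deg Y A d) (hB : Deg Y B d) :
    Deg Y (A + B) d := by
  unfold Deg at *
  rw [smul_add, ← hA, ← hB, mul_add, add_mul]
  abel

lemma deg_smul {Y A : Module.End K V} {d : ℤ} (c : K) (hA : Deg Y A d) : Deg Y (c • A) d := by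
  unfold Deg at *
  rw [smul_comm, ← hA, mul_smul_comm, smul_mul_assoc, smul_sub]

lemma deg_sum {ι : Type} {Y : Module.End K V} {A : ι → Module.End K V} {d : ℤ} (s : Finset ι)
    (hA : ∀ i ∈ s, Deg Y (A i) d) : Deg Y (∑ i ∈ s, A i) d := by
  unfold Deg at *
  rw [Finset.smul_sum, Finset.mul_sum, Finset.sum_mul, ← Finset.sum_sub_distrib]
  exact Finset.sum_congr rfl hA

/-- the Lefschetz property only depends on the conjugacy class -/
lemma hl_conj {D T R u v : Module.End K V} (huv : u * v = 1) (hvu : v * u = 1)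
    (hu : Commute D u) (h : u * T = R * u) (hR : HL D R) : HL D T := by
  have huvx : ∀ x, u (v x) = x := fun x => by
    rw [← Module.End.mul_apply, huv, Module.End.one_apply]
  have hvux : ∀ x, v (u x) = x := fun x => by
    rw [← Module.End.mul_apply, hvu, Module.End.one_apply]
  have hDu : ∀ x, D (u x) = u (D x) := fun x => by
    have := congrArg (fun A : Module.End K V => A x) hu.eq
    simpa only [Module.End.mul_apply] using this
  have hDv : ∀ x, D (v x) = v (D x) := fun x => by
    rw [← hvux (D (v x)), ← hDu, huvx]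
  have hbu : ∀ μ : K, Set.BijOn (⇑u) (D.eigenspace μ : Set V) (D.eigenspace μ : Set V) := by
    intro μ
    refine ⟨?_, ?_, ?_⟩
    · intro x hx
      rw [SetLike.mem_coe, Module.End.mem_eigenspace_iff] at hx ⊢
      rw [hDu, hx, map_smul]
    · intro x _ y _ hxy
      rw [← hvux x, ← hvux y, hxy]
    · intro y hy
      refine ⟨v y, ?_, huvx y⟩
      rw [SetLike.mem_coe, Module.End.mem_eigenspace_iff] at hy ⊢
      rw [hDv, hy, map_smul]
  have hbv : ∀ μ : K, Set.BijOn (⇑v) (D.eigenspace μ : Set V) (D.eigenspace μ : Set V) := by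
    intro μ
    refine ⟨?_, ?_, ?_⟩
    · intro x hx
      rw [SetLike.mem_coe, Module.End.mem_eigenspace_iff] at hx ⊢
      rw [hDv, hx, map_smul]
    · intro x _ y _ hxy
      rw [← huvx x, ← huvx y, hxy]
    · intro y hy
      refine ⟨u y, ?_, hvux y⟩
      rw [SetLike.mem_coe, Module.End.mem_eigenspace_iff] at hy ⊢
      rw [hDu, hy, map_smul]
  have hT : T = v * R * u := by
    rw [mul_assoc, ← h, ← mul_assoc, hvu, one_mul]
  have hTj : ∀ j : ℕ, T ^ j = v * R ^ j * u := by
    intro j
    induction j with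
    | zero => rw [pow_zero, pow_zero, mul_one, hvu]
    | succ j ih =>
      rw [pow_succ, ih, pow_succ]
      conv_lhs => rw [hT]
      calc v * R ^ j * u * (v * R * u) = v * R ^ j * (u * v) * R * u := by
            simp only [mul_assoc]
        _ = v * (R ^ j * R) * u := by rw [huv, mul_one]; simp only [mul_assoc]
  intro j
  have h1 := ((hbv (-(j : K))).comp ((hR j).comp (hbu (j : K))))
  rw [hTj j]
  exact h1

end

/-- **SCA** -/
theorem t_SCA : S_POL → S_CNJ → S_SCA := by
  intro hPOL hCNJ K V _ _ _ _ _ D Y S N n n' c c' hD hY hYD hS hN hDc hDc' hHL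
  classical
  obtain ⟨hS1, hS2, hS3⟩ := hS
  obtain ⟨hN1, hN2, hN3⟩ := hN
  set r := n + n' with hr
  have hSr : S = ∑ s ∈ Finset.range (r + 1), c s := by
    rw [hS1]
    apply Finset.sum_subset
    · intro s hs
      rw [Finset.mem_range] at hs ⊢
      omega
    · intro s _ hs
      rw [Finset.mem_range, not_lt] at hs
      exact hS3 s hs
  have hNr : N = ∑ s ∈ Finset.range (r + 1), c' s := by
    rw [hN1]
    apply Finset.sum_subset
    · intro s hs
      rw [Finset.mem_range] at hs ⊢
      omega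
    · intro s _ hs
      rw [Finset.mem_range, not_lt] at hs
      exact hN3 s hs
  -- the eigenvalues
  have hfin : {j : ℕ | D.HasEigenvalue (j : K) ∨ D.HasEigenvalue (-(j : K))}.Finite := by
    have h1 := Module.End.finite_hasEigenvalue D
    have h2 : {j : ℕ | D.HasEigenvalue (j : K)}.Finite :=
      h1.preimage (f := fun j : ℕ => (j : K)) (fun a _ b _ hab => by
        have hab' : (a : K) = b := hab
        exact_mod_cast hab')
    have h3 : {j : ℕ | D.HasEigenvalue (-(j : K))}.Finite :=
      h1.preimage (f := fun j : ℕ => -(j : K)) (fun a _ b _ hab => by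
        have hab' : (a : K) = b := neg_injective hab
        exact_mod_cast hab')
    exact h2.union h3
  set J := hfin.toFinset with hJ
  set F0 : Fin r → Module.End K V := fun i => c (i + 1) + c' (i + 1) with hF0
  have hdeg : ∀ e : Fin r → K, Deg D (c 0 + c' 0 + ∑ i, e i • F0 i) (-2) := by
    intro e
    apply deg_add (deg_add (hDc 0) (hDc' 0))
    apply deg_sum
    intro i _
    exact deg_smul _ (deg_add (hDc _) (hDc' _))
  have hmaps : ∀ (e : Fin r → K) (j : ℕ), ∀ x ∈ D.eigenspace (j : K),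
      ((c 0 + c' 0 + ∑ i, e i • F0 i) ^ j) x ∈ D.eigenspace (-(j : K)) := by
    intro e j x hx
    rw [Module.End.mem_eigenspace_iff] at hx ⊢
    have h1 : D x = ((j : ℤ) : K) • x := by rw [hx]; norm_cast
    rw [deg_pow (hdeg e) h1 j]
    congr 1
    push_cast
    ring
  obtain ⟨P, -, hP⟩ := hPOL K V r (c 0 + c' 0) F0 J (fun j => D.eigenspace (j : K))
    (fun j => D.eigenspace (-(j : K))) (fun j _ e x hx => hmaps e j x hx)
  have hHLe : ∀ e : Fin r → K, MvPolynomial.eval e P ≠ 0 →
      HL D (c 0 + c' 0 + ∑ i, e i • F0 i) := by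
    intro e he j
    by_cases hj : j ∈ J
    · exact (hP e).1 he j hj
    · rw [hJ, Set.Finite.mem_toFinset, Set.mem_ofPred_eq, not_or] at hj
      have h1 : D.eigenspace (j : K) = ⊥ := by
        by_contra h
        exact hj.1 (Module.End.hasEigenvalue_iff.2 h)
      have h2 : D.eigenspace (-(j : K)) = ⊥ := by
        by_contra h
        exact hj.2 (Module.End.hasEigenvalue_iff.2 h)
      rw [h1, h2]
      refine ⟨?_, ?_, ?_⟩
      · intro x hx
        rw [SetLike.mem_coe, Submodule.mem_bot] at hx ⊢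
        rw [hx, map_zero]
      · intro x hx y hy _
        rw [SetLike.mem_coe, Submodule.mem_bot] at hx hy
        rw [hx, hy]
      · intro y hy
        rw [SetLike.mem_coe, Submodule.mem_bot] at hy
        exact ⟨0, Submodule.zero_mem _, by rw [map_zero, hy]⟩
  have hP0 : MvPolynomial.eval (0 : Fin r → K) P ≠ 0 := by
    rw [hP 0]
    intro j _
    have h1 : c 0 + c' 0 + ∑ i, (0 : Fin r → K) i • F0 i = c 0 + c' 0 := by simp
    rw [h1]
    exact hHL j
  -- a polynomial in one variable
  set f : Fin r → Polynomial K := fun i => Polynomial.X ^ ((i : ℕ) + 1) with hf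
  set p : Polynomial K := MvPolynomial.aeval f P with hp
  have hpe : ∀ z : K, p.eval z = MvPolynomial.eval (fun i : Fin r => z ^ ((i : ℕ) + 1)) P := by
    intro z
    have h2 := MvPolynomial.comp_aeval_apply (f := f) (Polynomial.aeval z) P
    rw [Polynomial.coe_aeval_eq_eval] at h2
    rw [hp]
    refine Eq.trans h2 ?_
    have h3 : (fun i => Polynomial.eval z (f i)) = fun i : Fin r => z ^ ((i : ℕ) + 1) := by
      funext i
      rw [hf]
      show Polynomial.eval z (Polynomial.X ^ ((i : ℕ) + 1)) = _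
      rw [Polynomial.eval_pow, Polynomial.eval_X]
    rw [h3, MvPolynomial.aeval_eq_eval]
  have hp0 : p ≠ 0 := by
    intro h
    apply hP0
    have h1 := hpe 0
    rw [h, Polynomial.eval_zero] at h1
    rw [h1]
    congr 2
    funext i
    simp
  obtain ⟨ζ, hζ, hζp⟩ : ∃ ζ : K, ζ ≠ 0 ∧ p.eval ζ ≠ 0 := by
    by_contra hcon
    push Not at hcon
    have h1 : Polynomial.X * p = 0 := by
      apply Polynomial.funext
      intro z
      rw [Polynomial.eval_mul, Polynomial.eval_X, Polynomial.eval_zero]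
      by_cases hz : z = 0
      · rw [hz, zero_mul]
      · rw [hcon z hz, mul_zero]
    rcases mul_eq_zero.1 h1 with h2 | h2
    · exact Polynomial.X_ne_zero h2
    · exact hp0 h2
  rw [hpe] at hζp
  have hHLζ := hHLe _ hζp
  obtain ⟨u, v, huv, hvu, huD, huT⟩ := hCNJ K V Y hY ζ hζ
  refine ⟨ζ⁻¹, inv_ne_zero hζ, hl_conj huv hvu (huD D hYD.symm) ?_ hHLζ⟩
  have hR : c 0 + c' 0 + ∑ i : Fin r, ζ ^ ((i : ℕ) + 1) • F0 i =
      ∑ s ∈ Finset.range (r + 1), ζ ^ s • (c s + c' s) := by
    rw [Finset.sum_range_succ', pow_zero, one_smul, add_comm, Finset.sum_range]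
  rw [hR, hNr, hSr, Finset.smul_sum, ← Finset.sum_add_distrib, Finset.mul_sum, Finset.sum_mul]
  apply Finset.sum_congr rfl
  intro s _
  have h1 : u * c s = ζ ^ ((2 : ℤ) + s) • (c s * u) := huT (c s) (2 + s) (hS2 s)
  have h2 : u * c' s = ζ ^ ((0 : ℤ) + s) • (c' s * u) := huT (c' s) (0 + s) (hN2 s)
  rw [mul_add, mul_smul_comm, h1, h2, smul_smul, smul_mul_assoc, add_mul, smul_add, add_comm]
  congr 2
  · rw [zpow_add₀ hζ, inv_pow]
    have : ζ ^ (2 : ℤ) = ζ ^ 2 := by norm_cast
    rw [this, ← mul_assoc, inv_mul_cancel₀ (pow_ne_zero 2 hζ), one_mul, zpow_natCast]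
  · rw [zero_add, zpow_natCast]

end Pool.Agent.L7h53.ND
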